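import Mathlib
import Pool.Agent.H284.AP.Mal
import Pool.Agent.TH444.ML.Done

/-!
# Malle's conjecture for `C₂ ≀ X`, `X` an extension by a product of wreath products

`K` is a number field, `Γ` the Galois group of a finite Galois extension of `K` and `X → Γ` an
epimorphism of groups (split or not) whose kernel `N` is isomorphic to a finite direct product of
`G i ≀ S_(n i)`, `i ∈ I`, where `I` is not empty, all `G i` are nontrivial finite groups with trivial
centre, `n i ≥ ((3 |G i| + 2)!)^3`, `|Γ| ≤ ∏ (n i)!`, and for every `i` the inner automorphisms of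
`G i` have a complement in `Aut (G i)` (`InnerSplit`) or `|G i|` is coprime to the index of
`F C_X(F)` in `N_X(F)` (`locIndex`), where `F` is the `i`-th factor of `N` (`Factor`). All this is
the condition `BigStep`. The group `C₂ ≀ X` acts on `X × {0, 1}`. The number of isomorphism classes
of `C₂ ≀ X`-extensions of `K` with discriminant of norm at most `B` is asymptotic to `c B`.

Outline. The group `X` is a Galois group over `K` (`wreathStep_cls`: the homomorphism
`Γ → Out N = ∏ Out(G j) ≀ S_(k j)` is lifted to `∏ Aut(G j) ≀ S_(k j)`, by the complements or by the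
theorem of Schur and Zassenhaus for the normalizers of the factors). The product of the stabilizers
in `G i ≀ S_(n i)` of a point of `G i × {1, ..., n i}` is a subgroup of `X` with trivial core and
index `≤ |Γ| ∏ (n i |G i|)`, so the theorem of the starting library on `C₂ ≀ H` can be applied.
-/

set_option autoImplicit false

open Filter
open Pool.Agent.H284.AP (BigStep)

namespace Pool.Agent.Results.MP_a3214d_nt.OrderTwoByExtensions

/-- `G ≤ S_d` is, up to a bijection `f` of `{1, ..., d}` with `H × {0, 1}`, the wreath product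
`C₂ ≀ H`: it consists of all permutations `π` for which there is `h ∈ H` such that `π` maps the block
`{x} × {0, 1}` to the block `{h x} × {0, 1}`, for all `x ∈ H`. -/
def IsC2Wreath (H : Type) [Group H] {d : ℕ} (G : Subgroup (Equiv.Perm (Fin d))) : Prop :=
  ∃ f : Fin d ≃ H × Bool, ∀ π : Equiv.Perm (Fin d), π ∈ G ↔ ∃ h : H, ∀ i, (f (π i)).1 = h * (f i).1

/-- The fields `L` between `K` and its algebraic closure, of degree `d` over `K`, whose Galois group,
acting on the embeddings, is `G` (up to numbering), and whose relative discriminant has norm at most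
`B` (that is, `|d_L| ≤ B |d_K| ^ d`). -/
def Ext (K : Type) [Field K] [NumberField K] (d : ℕ) (G : Subgroup (Equiv.Perm (Fin d)))
    (B : ℝ) : Set (IntermediateField K (AlgebraicClosure K)) :=
  {L | Module.finrank K L = d ∧
    (∃ e : (L →ₐ[K] AlgebraicClosure K) ≃ Fin d, ∀ π : Equiv.Perm (Fin d),
      π ∈ G ↔ ∃ σ : AlgebraicClosure K ≃ₐ[K] AlgebraicClosure K,
        ∀ φ : L →ₐ[K] AlgebraicClosure K, e (σ.toAlgHom.comp φ) = π (e φ)) ∧
    ∃ h : NumberField L,
      ((|@NumberField.discr L _ h| : ℤ) : ℝ) ≤ B * ((|NumberField.discr K| : ℤ) : ℝ) ^ d}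

/-- `N(K, G; B)`: the number of these fields up to `K`-isomorphism. -/
noncomputable def N (K : Type) [Field K] [NumberField K] (d : ℕ)
    (G : Subgroup (Equiv.Perm (Fin d))) (B : ℝ) : ℕ :=
  Nat.card (Quot fun L L' : Ext K d G B => Nonempty (L.1 ≃ₐ[K] L'.1))

/-- The asymptotic formula of Malle's conjecture for `G` over `K`, with `a(G) = 1` and
`b(K, G) = 1`: `N(K, G; B) ~ c B` for some `c > 0`. -/
def Malle (K : Type) [Field K] [NumberField K] (d : ℕ) (G : Subgroup (Equiv.Perm (Fin d))) :
    Prop :=
  ∃ c : ℝ, 0 < c ∧ Tendsto (fun B : ℝ => (N K d G B : ℝ) / B) atTop (nhds c)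

/-- Malle's conjecture over `K` for all subgroups of symmetric groups of the form `C₂ ≀ H`, `H` in
its regular action; such groups exist and are transitive. -/
def MalleOrderTwo (K : Type) [Field K] [NumberField K] (H : Type) [Group H] : Prop :=
  (∃ (d : ℕ) (G : Subgroup (Equiv.Perm (Fin d))), d = 2 * Nat.card H ∧ IsC2Wreath H G ∧
    ∀ i j : Fin d, ∃ g ∈ G, g i = j) ∧
  ∀ (d : ℕ) (G : Subgroup (Equiv.Perm (Fin d))), IsC2Wreath H G → Malle K d G

/-- The group `C₂ ≀ H` exists, and is transitive. -/
theorem exists_group (H : Type) [Group H] [Finite H] : ∃ (d : ℕ)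
    (G : Subgroup (Equiv.Perm (Fin d))), d = 2 * Nat.card H ∧ IsC2Wreath H G ∧
      ∀ i j : Fin d, ∃ g ∈ G, g i = j := by
  have hcard : Nat.card (H × Bool) = 2 * Nat.card H := by
    rw [Nat.card_prod, mul_comm]
    simp
  let f : Fin (2 * Nat.card H) ≃ H × Bool := (Finite.equivFinOfCardEq hcard).symm
  let G : Subgroup (Equiv.Perm (Fin (2 * Nat.card H))) :=
    { carrier := {π | ∃ h : H, ∀ i, (f (π i)).1 = h * (f i).1}
      one_mem' := ⟨1, fun i => by simp⟩
      mul_mem' := by
        rintro π ρ ⟨h, hh⟩ ⟨h', hh'⟩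
        refine ⟨h * h', fun i => ?_⟩
        rw [Equiv.Perm.mul_apply, hh, hh', mul_assoc]
      inv_mem' := by
        rintro π ⟨h, hh⟩
        refine ⟨h⁻¹, fun i => ?_⟩
        have h1 := hh (π⁻¹ i)
        rw [show π (π⁻¹ i) = i from π.apply_symm_apply i] at h1
        rw [h1, inv_mul_cancel_left] }
  refine ⟨2 * Nat.card H, G, rfl, ⟨f, fun π => Iff.rfl⟩, fun i j => ?_⟩
  let t : Equiv.Perm (H × Bool) :=
    (Equiv.mulLeft ((f j).1 * (f i).1⁻¹)).prodCongr (Equiv.swap (f i).2 (f j).2)
  refine ⟨f.trans (t.trans f.symm), ⟨(f j).1 * (f i).1⁻¹, fun x => ?_⟩, ?_⟩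
  · simp [t]
  · change f.symm (t (f i)) = j
    rw [Equiv.symm_apply_eq]
    exact Prod.ext (by simp [t]) (by simp [t])

theorem of_data (K : Type) [Field K] [NumberField K] (H : Type) [Group H] [Finite H]
    (U : Subgroup H) (hU : U.normalCore = ⊥) (hc : 8 * U.index * (U.index + 1) ≤ Nat.card H)
    (hne : (Pool.Agent.TH444.ML.Gal K (AlgebraicClosure K) H).Nonempty) :
    MalleOrderTwo K H := by
  have h1 : 1 ≤ U.index := Nat.one_le_iff_ne_zero.2 Subgroup.index_ne_zero_of_finite
  have h2 : 2 ≤ Nat.card H := by nlinarith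
  exact ⟨exists_group H, fun d G hG =>
    Pool.Agent.TH444.ML.asymp_iso Pool.Agent.TH444.ML.rest K H h2 U hU hc hne G hG⟩

end Pool.Agent.Results.MP_a3214d_nt.OrderTwoByExtensions

open Pool.Agent.Results.MP_a3214d_nt.OrderTwoByExtensions in
/-- Malle's conjecture holds over `K` for `C₂ ≀ X`, for all extensions `X` of `Gal(L/K)` by large
products of wreath products. -/
theorem Pool.Agent.Results.MP_a3214d_nt.OrderTwoByExtensions.result :
    ∀ (K L X : Type) [Field K] [NumberField K] [Field L] [Algebra K L] [FiniteDimensional K L]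
      [IsGalois K L] [Group X] (p : X →* (L ≃ₐ[K] L)), BigStep p → MalleOrderTwo K X := by
  intro K L X _ _ _ _ _ _ _ p hp
  have hcls := Pool.Agent.H284.AP.wreathStep_cls K hp.wreathStep
  have hfin : Finite X := hcls.finite
  obtain ⟨U, hU, hc⟩ := Pool.Agent.H284.AP.exists_core hp
  exact of_data K X U hU hc
    (Pool.Agent.TH444.ML.gal_nonempty K (AlgebraicClosure K) L X p hcls)
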