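import Mathlib
import Pool.Agent.H284.AP.Mal2
import Pool.Agent.TH444.ML.Done

/-!
# Malle's conjecture for `C₂ ≀ Hol(H)`, `H` a large direct power

Let `G i`, `i ∈ I`, be finitely many arbitrary finite groups, `H ≠ 1` isomorphic to the direct
product of the powers `(G i)^(n i)` with `n i ≥ bd |G i|`, where `bd c = ((3 c c! + 2)!)^3`
(`LargePower H`), such that `f (g x) = 1` for any two homomorphisms `f, g : H → Z(H)` and all `x`
(`CC H`; this holds for example if `Z(G i) ≤ [G i, G i]` for all `i`, so for all perfect and all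
centreless groups `G i`). Let `Hol(H) = H ⋊ Aut(H)` be the holomorph. The group `C₂ ≀ Hol(H)` acts on
`Hol(H) × {0, 1}`. Over every number field `K` the number of isomorphism classes of
`C₂ ≀ Hol(H)`-extensions of `K` with discriminant of norm at most `B` is asymptotic to `c B`.

Outline. `Hol(H)` is a quotient of a semidirect product of a direct product of wreath products
`Hol(R j) ≀ S_(m j)` with a finite abelian kernel (`powerType_cls`, by the method of the Krull-Schmidt
theorem), so it is a Galois group over every number field. The subgroup `Aut(H)` of `Hol(H)` has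
trivial core and index `|H|`, and `16 |H| ≤ |Aut(H)|`. So the theorem of the starting library on
`C₂ ≀ H` can be applied.
-/

set_option autoImplicit false

open Filter
open Pool.Agent.H284.AP (LargePower CC Hol)

namespace Pool.Agent.Results.MP_a3214d_nt.OrderTwoByHolomorphs

/-- `G ≤ S_d` is, up to a bijection `f` of `{1, ..., d}` with `H × {0, 1}`, the wreath product
`C₂ ≀ H`: it consists of all permutations `π` for which there is `h ∈ H` such that `π` maps the block
`{x} × {0, 1}` to the block `{h x} × {0, 1}`, for all `x ∈ H`. -/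
def IsC2Wreath (H : Type) [Group H] {d : ℕ} (G : Subgroup (Equiv.Perm (Fin d))) : Prop :=
  ∃ f : Fin d ≃ H × Bool, ∀ π : Equiv.Perm (Fin d), π ∈ G ↔ ∃ h : H, ∀ i, (f (π i)).1 = h * (f i).1

/-- The fields `L` between `K` and its algebraic closure, of degree `d` over `K`, whose Galois group,
acting on the embeddings, is `G` (up to numbering), and whose relative discriminant has norm at most
`B` (that is, `|d_L| ≤ B |d_K| ^ d`). -/
def Ext (K : Type) [Field K] [NumberField K] (d : ℕ) (G : Subgroup (Equiv.Perm (Fin d)))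
    (B : ℝ) : Set (IntermediateField K (AlgebraicClosure K)) :=
  {L | Module.finrank K L = d ∧
    (∃ e : (L →ₐ[K] AlgebraicClosure K) ≃ Fin d, ∀ π : Equiv.Perm (Fin d),
      π ∈ G ↔ ∃ σ : AlgebraicClosure K ≃ₐ[K] AlgebraicClosure K,
        ∀ φ : L →ₐ[K] AlgebraicClosure K, e (σ.toAlgHom.comp φ) = π (e φ)) ∧
    ∃ h : NumberField L,
      ((|@NumberField.discr L _ h| : ℤ) : ℝ) ≤ B * ((|NumberField.discr K| : ℤ) : ℝ) ^ d}

/-- `N(K, G; B)`: the number of these fields up to `K`-isomorphism. -/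
noncomputable def N (K : Type) [Field K] [NumberField K] (d : ℕ)
    (G : Subgroup (Equiv.Perm (Fin d))) (B : ℝ) : ℕ :=
  Nat.card (Quot fun L L' : Ext K d G B => Nonempty (L.1 ≃ₐ[K] L'.1))

/-- The asymptotic formula of Malle's conjecture for `G` over `K`, with `a(G) = 1` and
`b(K, G) = 1`: `N(K, G; B) ~ c B` for some `c > 0`. -/
def Malle (K : Type) [Field K] [NumberField K] (d : ℕ) (G : Subgroup (Equiv.Perm (Fin d))) :
    Prop :=
  ∃ c : ℝ, 0 < c ∧ Tendsto (fun B : ℝ => (N K d G B : ℝ) / B) atTop (nhds c)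

/-- Malle's conjecture over `K` for all subgroups of symmetric groups of the form `C₂ ≀ H`, `H` in
its regular action; such groups exist and are transitive. -/
def MalleOrderTwo (K : Type) [Field K] [NumberField K] (H : Type) [Group H] : Prop :=
  (∃ (d : ℕ) (G : Subgroup (Equiv.Perm (Fin d))), d = 2 * Nat.card H ∧ IsC2Wreath H G ∧
    ∀ i j : Fin d, ∃ g ∈ G, g i = j) ∧
  ∀ (d : ℕ) (G : Subgroup (Equiv.Perm (Fin d))), IsC2Wreath H G → Malle K d G

/-- The group `C₂ ≀ H` exists, and is transitive. -/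
theorem exists_group (H : Type) [Group H] [Finite H] : ∃ (d : ℕ)
    (G : Subgroup (Equiv.Perm (Fin d))), d = 2 * Nat.card H ∧ IsC2Wreath H G ∧
      ∀ i j : Fin d, ∃ g ∈ G, g i = j := by
  have hcard : Nat.card (H × Bool) = 2 * Nat.card H := by
    rw [Nat.card_prod, mul_comm]
    simp
  let f : Fin (2 * Nat.card H) ≃ H × Bool := (Finite.equivFinOfCardEq hcard).symm
  let G : Subgroup (Equiv.Perm (Fin (2 * Nat.card H))) :=
    { carrier := {π | ∃ h : H, ∀ i, (f (π i)).1 = h * (f i).1}
      one_mem' := ⟨1, fun i => by simp⟩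
      mul_mem' := by
        rintro π ρ ⟨h, hh⟩ ⟨h', hh'⟩
        refine ⟨h * h', fun i => ?_⟩
        rw [Equiv.Perm.mul_apply, hh, hh', mul_assoc]
      inv_mem' := by
        rintro π ⟨h, hh⟩
        refine ⟨h⁻¹, fun i => ?_⟩
        have h1 := hh (π⁻¹ i)
        rw [show π (π⁻¹ i) = i from π.apply_symm_apply i] at h1
        rw [h1, inv_mul_cancel_left] }
  refine ⟨2 * Nat.card H, G, rfl, ⟨f, fun π => Iff.rfl⟩, fun i j => ?_⟩
  let t : Equiv.Perm (H × Bool) :=
    (Equiv.mulLeft ((f j).1 * (f i).1⁻¹)).prodCongr (Equiv.swap (f i).2 (f j).2)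
  refine ⟨f.trans (t.trans f.symm), ⟨(f j).1 * (f i).1⁻¹, fun x => ?_⟩, ?_⟩
  · simp [t]
  · change f.symm (t (f i)) = j
    rw [Equiv.symm_apply_eq]
    exact Prod.ext (by simp [t]) (by simp [t])

theorem of_data (K : Type) [Field K] [NumberField K] (H : Type) [Group H] [Finite H]
    (U : Subgroup H) (hU : U.normalCore = ⊥) (hc : 8 * U.index * (U.index + 1) ≤ Nat.card H)
    (hne : (Pool.Agent.TH444.ML.Gal K (AlgebraicClosure K) H).Nonempty) :
    MalleOrderTwo K H := by
  have h1 : 1 ≤ U.index := Nat.one_le_iff_ne_zero.2 Subgroup.index_ne_zero_of_finite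
  have h2 : 2 ≤ Nat.card H := by nlinarith
  exact ⟨exists_group H, fun d G hG =>
    Pool.Agent.TH444.ML.asymp_iso Pool.Agent.TH444.ML.rest K H h2 U hU hc hne G hG⟩

end Pool.Agent.Results.MP_a3214d_nt.OrderTwoByHolomorphs

open Pool.Agent.Results.MP_a3214d_nt.OrderTwoByHolomorphs in
/-- Malle's conjecture holds over all number fields for `C₂ ≀ Hol(H)`, `H` a large direct power. -/
theorem Pool.Agent.Results.MP_a3214d_nt.OrderTwoByHolomorphs.result :
    ∀ (H : Type) [Group H] [Nontrivial H], LargePower H → CC H →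
      ∀ (K : Type) [Field K] [NumberField K], MalleOrderTwo K (Hol H) := by
  intro H _ _ hH hC K _ _
  obtain ⟨hfin, U, hU, hc⟩ := Pool.Agent.H284.AP.hol_core H hH
  have hcls := Pool.Agent.H284.AP.powerType_cls (N := Hol H)
    ⟨H, inferInstance, hH, Or.inr (Or.inr ⟨hC, Or.inl ⟨MulEquiv.refl _⟩⟩)⟩ K (K ≃ₐ[K] K)
  have hsub : Subsingleton (K ≃ₐ[K] K) := ⟨fun σ τ => by
    ext x
    exact (σ.commutes x).trans (τ.commutes x).symm⟩
  have hcls2 : Pool.Agent.TH444.TW.Cls K (1 : Hol H →* (K ≃ₐ[K] K)) := by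
    refine Pool.Agent.TH444.TW.Cls.quot _ (MonoidHom.snd (K ≃ₐ[K] K) (Hol H)) ?_ ?_
    · intro x
      exact ⟨(1, x), rfl⟩
    · have h3 : (1 : Hol H →* (K ≃ₐ[K] K)).comp (MonoidHom.snd (K ≃ₐ[K] K) (Hol H)) =
          MonoidHom.fst (K ≃ₐ[K] K) (Hol H) :=
        MonoidHom.ext fun x => Subsingleton.elim _ _
      rw [h3]
      exact hcls
  exact of_data K (Hol H) U hU hc
    (Pool.Agent.TH444.ML.gal_nonempty K (AlgebraicClosure K) K (Hol H) 1 hcls2)
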